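import Pool.Agent.FTA.Count

/-!
# Arithmetic of the block
-/

namespace Pool.Agent.FTB

open Pool.Agent.FTA

theorem sum_identity (j t : ℕ) : j * ∑ h ∈ Finset.range (t + 1), Bs (j + 2) h + (t + 1) =
    (j + 1) * Bs (j + 2) t := by
  induction t with
  | zero =>
    simp [Bs]
  | succ t ih =>
    rw [Finset.sum_range_succ]
    have h1 := Bs_geom j (t + 1)
    have h3 : Bs (j + 2) (t + 1) = Bs (j + 2) t + (j + 1) ^ (t + 1) := by
      unfold Bs
      rw [Finset.sum_range_succ _ (t + 1)]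
      rfl
    have h4 : (j + 1) * Bs (j + 2) (t + 1) = (j + 1) * Bs (j + 2) t + (j + 1) ^ (t + 1 + 1) := by
      rw [h3]; ring
    rw [h4, ← ih]
    generalize (j + 1) ^ (t + 1 + 1) = P at h1 ⊢
    nlinarith

theorem blk_identity {k t : ℕ} (hk : 2 ≤ k) (ht : 1 ≤ t) :
    2 * (∑ h ∈ Finset.range t, Bs k h) + (k - 1) * Bs k (t - 1) =
      k * (∑ h ∈ Finset.range t, Bs k h) + t := by
  obtain ⟨j, rfl⟩ : ∃ j, k = j + 2 := ⟨k - 2, by omega⟩
  obtain ⟨T, rfl⟩ : ∃ T, t = T + 1 := ⟨t - 1, by omega⟩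
  have h1 := sum_identity j T
  have e1 : T + 1 - 1 = T := by omega
  have e3 : j + 2 - 1 = j + 1 := by omega
  rw [e1, e3, ← h1]
  ring

theorem upper_arith {k t : ℕ} (hk : 2 ≤ k) (ht : 1 ≤ t) {n N m f b : ℕ}
    (hb : b = k * ∑ h ∈ Finset.range t, Bs k h)
    (hn : n = k + (N * b + m)) (hm : m < b)
    (hf : f ≤ k * k + N * (b + k.choose 2 * Bs k (t - 1)) + k * m) :
    (∑ h ∈ Finset.range t, Bs k h) * (2 * f) ≤ (∑ h ∈ Finset.range t, Bs k h) * (k * n) + t * n +
      (∑ h ∈ Finset.range t, Bs k h) * (2 * (k * k + k * b)) := by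
  have h1 := blk_identity hk ht
  have h3 : 2 * k.choose 2 = k * (k - 1) := by
    rw [Nat.choose_two_right]
    exact Nat.mul_div_cancel' (Nat.even_mul_pred_self k).two_dvd
  generalize (∑ h ∈ Finset.range t, Bs k h) = B at *
  generalize Bs k (t - 1) = c at *
  generalize k.choose 2 = w at *
  have h4 : 2 * f ≤ 2 * (k * k) + N * (k * b + k * t) + 2 * (k * m) := by
    have h5 : 2 * f ≤ 2 * (k * k) + N * (2 * b + (2 * w) * c) + 2 * (k * m) := by
      calc 2 * f ≤ 2 * (k * k + N * (b + w * c) + k * m) := Nat.mul_le_mul_left _ hf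
        _ = _ := by ring
    rw [h3] at h5
    have h6 : 2 * b + k * (k - 1) * c = k * b + k * t := by
      rw [hb]
      calc 2 * (k * B) + k * (k - 1) * c = k * (2 * B + (k - 1) * c) := by ring
        _ = _ := by rw [h1]; ring
    rw [h6] at h5
    exact h5
  have h5 : N * b ≤ n := by omega
  have h6 : B * (N * (k * t)) ≤ t * n := by
    calc B * (N * (k * t)) = t * (N * (k * B)) := by ring
      _ = t * (N * b) := by rw [hb]
      _ ≤ t * n := Nat.mul_le_mul_left _ h5
  calc B * (2 * f) ≤ B * (2 * (k * k) + N * (k * b + k * t) + 2 * (k * m)) :=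
        Nat.mul_le_mul_left _ h4
    _ = B * (k * (N * b)) + B * (N * (k * t)) + B * (2 * (k * k + k * m)) := by ring
    _ ≤ B * (k * n) + t * n + B * (2 * (k * k + k * b)) := by
        refine Nat.add_le_add (Nat.add_le_add ?_ h6) ?_
        · exact Nat.mul_le_mul_left _ (Nat.mul_le_mul_left _ h5)
        · exact Nat.mul_le_mul_left _ (Nat.mul_le_mul_left _
            (Nat.add_le_add_left (Nat.mul_le_mul_left _ hm.le) _))

end Pool.Agent.FTB
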