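import Pool.Agent.FTB.Graph

/-!
# Fault tolerance of the block graph
-/

namespace Pool.Agent.FTB

open Pool.Agent.Helper68 Pool.Agent.FT6

variable {k t N m : ℕ}

/-- the full word reached from `x` by the letter `i` -/
def bot (x : TV k) (i : Fin k) : TV k :=
  (x.1, x.2.1, List.replicate (x.2.1 - x.2.2.length) i ++ x.2.2)

theorem bot_full {x : TV k} (hx : Blk t x) (i : Fin k) : (bot x i).2.2.length = (bot x i).2.1 := by
  have := hx.2.1
  simp only [bot, List.length_append, List.length_replicate]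
  omega

theorem blk_replicate {x : TV k} {b : Fin k} {j : ℕ} (hx : Blk t x) (hb : b ≠ x.1)
    (hj : x.2.2.length + j ≤ x.2.1) : Blk t (x.1, x.2.1, List.replicate j b ++ x.2.2) := by
  refine ⟨hx.1, ?_, ?_⟩
  · rw [List.length_append, List.length_replicate]
    simp only
    omega
  · intro y hy
    simp only [List.mem_append] at hy ⊢
    rcases hy with hy | hy
    · rw [List.eq_of_mem_replicate hy]
      exact hb
    · exact hx.2.2 y hy

/-- the inner vertices of the path number `i` of `x` -/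
def QB (t : ℕ) (i : Fin k) (x : TV k) : Set (TV k) :=
  if i = x.1 then {s | s.1 = x.1 ∧ s.2.1 = x.2.1 ∧ s.2.2 <:+ x.2.2 ∧ s.2.2 ≠ x.2.2}
  else {s | ∃ j, 1 ≤ j ∧ j ≤ x.2.1 - x.2.2.length ∧
      s = (x.1, x.2.1, List.replicate j i ++ x.2.2)} ∪
    {s | s.1 = i ∧ s.2.1 = (ptn t i (bot x i)).2.1 ∧ s.2.2 <:+ (ptn t i (bot x i)).2.2}

/-- proper ancestor -/
def ancB (x y : TV k) : Prop := x.1 = y.1 ∧ x.2.1 = y.2.1 ∧ x.2.2 <:+ y.2.2 ∧ x.2.2 ≠ y.2.2

theorem ancB_len {x y : TV k} (h : ancB x y) : x.2.2.length < y.2.2.length := by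
  obtain ⟨-, -, h1, h2⟩ := h
  rcases h1.length_le.lt_or_eq with h3 | h3
  · exact h3
  · exact absurd (h1.eq_of_length h3) h2

theorem ancB_trans {x y z : TV k} (h : ancB x y) (h' : ancB y z) : ancB x z := by
  refine ⟨h.1.trans h'.1, h.2.1.trans h'.2.1, h.2.2.1.trans h'.2.2.1, ?_⟩
  intro h3
  have h1 := ancB_len h
  have h2 := ancB_len h'
  rw [h3] at h1
  omega

theorem QB_spec {i : Fin k} {x s : TV k} (c0 : Fin k) (h : s ∈ QB t i x) :
    (i = s.1 ∧ ¬ ancB x s) ∨ (i = s.2.2.headD c0 ∧ i ≠ s.1 ∧ ancB x s) := by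
  unfold QB at h
  split_ifs at h with hi
  · left
    obtain ⟨h1, h2, h3, h4⟩ := h
    refine ⟨hi.trans h1.symm, fun h5 => ?_⟩
    have h6 := ancB_len h5
    have h7 := h3.length_le
    omega
  · rcases h with ⟨j, hj1, hj2, rfl⟩ | ⟨h1, h2, h3⟩
    · right
      obtain ⟨j', rfl⟩ : ∃ j', j = j' + 1 := ⟨j - 1, by omega⟩
      refine ⟨by simp [List.replicate_succ], hi, rfl, rfl, List.suffix_append _ _, ?_⟩
      intro h5
      have := congrArg List.length h5
      simp at this
    · left
      refine ⟨h1.symm, fun h5 => ?_⟩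
      exact hi (h1.symm.trans h5.1.symm)

theorem QB_own {x s : TV k} (h : s ∈ QB t x.1 x) : ancB s x := by
  unfold QB at h
  rw [if_pos rfl] at h
  exact ⟨h.1, h.2.1, h.2.2.1, h.2.2.2⟩

section conn

variable {S : Finset (Fin k ⊕ XX k t N m)}

/-- the vertex of the block `β` -/
abbrev vt (k t N m : ℕ) (β : Fin N) (x : TV k) (hx : x ∈ blk k t) : Fin k ⊕ XX k t N m :=
  .inr (.inl (β, ⟨x, hx⟩))

theorem conn_up (β : Fin N) {a : Fin k} {h : ℕ} : ∀ (l : List (Fin k))
    (hx : ((a, h, l) : TV k) ∈ blk k t),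
    (∀ l' (hs : l' <:+ l), vt k t N m β (a, h, l') (blk_suffix hx hs) ∉ S) → .inl a ∉ S →
    Conn (gGraph k t N m) S (l.length + 1) (vt k t N m β (a, h, l) hx) (.inl a)
  | [], hx, hS, ha => by
    have h1 := hS [] (List.suffix_refl _)
    exact (Conn.refl ha).cons h1 (Or.inr ⟨rfl, rfl⟩)
  | b :: l, hx, hS, ha => by
    have hx' : ((a, h, l) : TV k) ∈ blk k t := blk_suffix hx (List.suffix_cons _ _)
    have h2 := conn_up β l hx' (fun l' hs => hS l' (hs.trans (List.suffix_cons _ _))) ha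
    have h1 := hS (b :: l) (List.suffix_refl _)
    refine h2.cons h1 (Or.inr ?_)
    exact ⟨rfl, Or.inl ⟨rfl, rfl, b, rfl⟩⟩

theorem conn_down (β : Fin N) {a b : Fin k} {h : ℕ} {l : List (Fin k)}
    (hx : ((a, h, l) : TV k) ∈ blk k t) (hb : b ≠ a) : ∀ (n : ℕ) (hn : l.length + n ≤ h),
    (∀ j (hj : j ≤ n), vt k t N m β (a, h, List.replicate j b ++ l)
      (mem_blk.mpr (blk_replicate (mem_blk.mp hx) hb (by simp only; omega))) ∉ S) →
    Conn (gGraph k t N m) S n (vt k t N m β (a, h, l) hx)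
      (vt k t N m β (a, h, List.replicate n b ++ l)
        (mem_blk.mpr (blk_replicate (mem_blk.mp hx) hb hn)))
  | 0, hn, hS => Conn.refl (hS 0 (le_refl _))
  | n + 1, hn, hS => by
    have h1 := conn_down β hx hb n (by omega) (fun j hj => hS j (by omega))
    have h2 := hS (n + 1) (le_refl _)
    have h3 : Conn (gGraph k t N m) S 1
        (vt k t N m β (a, h, List.replicate n b ++ l)
          (mem_blk.mpr (blk_replicate (mem_blk.mp hx) hb (by simp only; omega))))
        (vt k t N m β (a, h, List.replicate (n + 1) b ++ l)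
          (mem_blk.mpr (blk_replicate (mem_blk.mp hx) hb hn))) := by
      refine (Conn.refl h2).cons (hS n (by omega)) (Or.inr ?_)
      exact ⟨rfl, Or.inr (Or.inl ⟨rfl, rfl, b, by simp [List.replicate_succ]⟩)⟩
    exact Conn.trans' h1 h3

theorem conn_path (β : Fin N) {i : Fin k} {x : TV k} (hx : x ∈ blk k t)
    (hxS : vt k t N m β x hx ∉ S) (hi : .inl i ∉ S)
    (hQ : ∀ s (hs : s ∈ blk k t), s ∈ QB t i x → vt k t N m β s hs ∉ S) :
    Conn (gGraph k t N m) S (t + 1) (vt k t N m β x hx) (.inl i) := by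
  have hx0 := mem_blk.mp hx
  by_cases hia : i = x.1
  · subst hia
    obtain ⟨a, h, l⟩ := x
    have h1 : h < t := hx0.1
    have h2 : l.length ≤ h := hx0.2.1
    refine (conn_up β l hx ?_ hi).mono (by omega)
    intro l' hs
    by_cases hl' : l' = l
    · subst hl'
      exact hxS
    · apply hQ
      unfold QB
      rw [if_pos rfl]
      exact ⟨rfl, rfl, hs, hl'⟩
  · have hbf := bot_full hx0 i
    have hbb : Blk t (bot x i) := blk_replicate hx0 hia (by have := hx0.2.1; omega)
    have hpb : Blk t (ptn t i (bot x i)) := ptn_blk hbb hbf hia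
    have hpf := ptn_full hbb hbf i
    have hpp := ptn_ptn hbb hbf i
    obtain ⟨a, h, l⟩ := x
    have hh : h < t := hx0.1
    have hlh0 : l.length ≤ h := hx0.2.1
    have hlh : l.length + (h - l.length) ≤ h := by omega
    have hdown := conn_down (S := S) (m := m) β hx hia (h - l.length) hlh (by
      intro j hj
      rcases Nat.eq_zero_or_pos j with rfl | hj0
      · exact hxS
      · apply hQ
        unfold QB
        rw [if_neg hia]
        left
        exact ⟨j, hj0, hj, rfl⟩)
    -- going up in the other tree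
    have hup := conn_up (S := S) (m := m) β (ptn t i (bot ((a, h, l) : TV k) i)).2.2
      (a := i) (h := (ptn t i (bot ((a, h, l) : TV k) i)).2.1) (mem_blk.mpr hpb) (by
        intro l' hs
        apply hQ
        unfold QB
        rw [if_neg hia]
        right
        exact ⟨rfl, rfl, hs⟩) hi
    have hcr : Conn (gGraph k t N m) S 1
        (vt k t N m β (bot ((a, h, l) : TV k) i) (mem_blk.mpr hbb))
        (vt k t N m β (ptn t i (bot ((a, h, l) : TV k) i)) (mem_blk.mpr hpb)) := by
      have hS1 : vt k t N m β (ptn t i (bot ((a, h, l) : TV k) i)) (mem_blk.mpr hpb) ∉ S := by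
        apply hQ
        unfold QB
        rw [if_neg hia]
        right
        exact ⟨rfl, rfl, List.suffix_refl _⟩
      have hS2 : vt k t N m β (bot ((a, h, l) : TV k) i) (mem_blk.mpr hbb) ∉ S := by
        rcases Nat.eq_zero_or_pos (h - l.length) with hz | hz
        · have hbx : bot ((a, h, l) : TV k) i = (a, h, l) := by
            simp [bot, hz]
          simp only [hbx]
          exact hxS
        · apply hQ
          unfold QB
          rw [if_neg hia]
          left
          exact ⟨h - l.length, hz, le_refl _, rfl⟩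
      refine (Conn.refl hS1).cons hS2 (Or.inr ?_)
      exact ⟨rfl, Or.inr (Or.inr ⟨fun h => hia h.symm, hbf, hpf, rfl, hpp.symm⟩)⟩
    refine (Conn.trans' hdown (Conn.trans' hcr hup)).mono ?_
    have hrun : h - l.length ≤ run i (bot ((a, h, l) : TV k) i).2.2 := le_run i _ l
    have hrl := length_split i (bot ((a, h, l) : TV k) i).2.2
    rw [hpf]
    have hp1 : (ptn t i (bot ((a, h, l) : TV k) i)).2.1 =
      t - 1 - run i (bot ((a, h, l) : TV k) i).2.2 := rfl
    have hb1 : (bot ((a, h, l) : TV k) i).2.1 = h := rfl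
    rw [hp1]
    rw [hbf, hb1] at hrl
    omega

theorem conn_own (β : Fin N) {x : TV k} (hx : x ∈ blk k t)
    (hxS : vt k t N m β x hx ∉ S) (hi : .inl x.1 ∉ S)
    (hQ : ∀ s (hs : s ∈ blk k t), s ∈ QB t x.1 x → vt k t N m β s hs ∉ S) :
    Conn (gGraph k t N m) S t (vt k t N m β x hx) (.inl x.1) := by
  have hx0 := mem_blk.mp hx
  obtain ⟨a, h, l⟩ := x
  have h1 : h < t := hx0.1
  have h2 : l.length ≤ h := hx0.2.1
  refine (conn_up β l hx ?_ hi).mono (by omega)
  intro l' hs
  by_cases hl' : l' = l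
  · subst hl'
    exact hxS
  · apply hQ
    unfold QB
    rw [if_pos rfl]
    exact ⟨rfl, rfl, hs, hl'⟩

end conn

theorem gGraph_conn (hk : 1 ≤ k) (ht : 1 ≤ t) (S : Finset (Fin k ⊕ XX k t N m))
    (hS : S.card = k - 1) (u v : Fin k ⊕ XX k t N m) (hu : u ∉ S) (hv : v ∉ S) :
    Conn (gGraph k t N m) S (2 * (t + 1)) u v := by
  classical
  let c0 : Fin k := ⟨0, by omega⟩
  refine FTA.frame_conn (G := gGraph k t N m) (r := t + 1)
    (Q := fun i w => match w with
      | .inl y => {z | ∃ s, ∃ hs : s ∈ blk k t, s ∈ QB t i y.2.1 ∧ z = .inl (y.1, ⟨s, hs⟩)}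
      | .inr _ => ∅)
    (col := fun w => match w with
      | .inl y => y.2.1.1
      | .inr _ => c0)
    (lam := fun w => match w with
      | .inl y => y.2.1.2.2.headD c0
      | .inr _ => c0)
    (anc := fun w w' => match w, w' with
      | .inl y, .inl y' => y.1 = y'.1 ∧ ancB y.2.1 y'.2.1
      | _, _ => False)
    hk (by omega) (fun i j h => h) ?_ ?_ ?_ ?_ ?_ ?_ ?_ S hS u v hu hv
  · rintro i (y | e) s hs
    · obtain ⟨s', hs', h1, rfl⟩ := hs
      rcases QB_spec c0 h1 with ⟨h2, h3⟩ | ⟨h2, h3, h4⟩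
      · exact Or.inl ⟨h2, fun h => h3 h.2⟩
      · exact Or.inr ⟨h2, h3, rfl, h4⟩
    · exact absurd hs (by simp)
  · rintro (x | e) (y | f) h
    · exact h.2.1
    · exact h.elim
    · exact h.elim
    · exact h.elim
  · rintro (y | e) s hs
    · obtain ⟨s', hs', h1, rfl⟩ := hs
      exact ⟨rfl, QB_own h1⟩
    · exact absurd hs (by simp)
  · rintro (x | e) (y | f) (z | g) h h'
    · exact ⟨h.1.trans h'.1, ancB_trans h.2 h'.2⟩
    all_goals first | exact h.elim | exact h'.elim
  · rintro (x | e) h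
    · exact absurd (ancB_len h.2) (lt_irrefl _)
    · exact h
  · rintro S i (⟨β, x, hx⟩ | e) hu hi hQ
    · exact conn_path β hx hu hi (fun s hs hsQ => hQ _ ⟨s, hs, hsQ, rfl⟩)
    · exact ((Conn.refl hi).cons hu (Or.inr trivial)).mono (by omega)
  · rintro S (⟨β, x, hx⟩ | e) hu hi hQ
    · exact (conn_own β hx hu hi (fun s hs hsQ => hQ _ ⟨s, hs, hsQ, rfl⟩)).mono (by omega)
    · exact ((Conn.refl hi).cons hu (Or.inr trivial)).mono (by omega)

end Pool.Agent.FTB
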