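import Pool.Agent.FTB.Graph
import Pool.Agent.FTA.Defs

/-!
# The number of vertices and edges of the block graph
-/

namespace Pool.Agent.FTB

open Pool.Agent.Helper68 Pool.Agent.FTA

variable {k t N m : ℕ}

theorem card_wd (a : Fin k) (j : ℕ) : (wd k a j).card = (k - 1) ^ j := by
  induction j with
  | zero => simp [wd]
  | succ j ih =>
    unfold wd
    rw [Finset.card_image_of_injective, Finset.card_product, ih, Finset.card_erase_of_mem
      (Finset.mem_univ _), Finset.card_univ, Fintype.card_fin]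
    · ring
    · rintro ⟨b, l⟩ ⟨b', l'⟩ h
      simp only [List.cons.injEq] at h
      rw [h.1, h.2]

theorem card_blk {k t : ℕ} : (blk k t).card = k * ∑ h ∈ Finset.range t, Bs k h := by
  unfold blk
  rw [Finset.card_biUnion]
  · rw [Finset.sum_congr rfl (g := fun _ => ∑ h ∈ Finset.range t, Bs k h)]
    · simp
    · intro a _
      rw [Finset.card_biUnion]
      · refine Finset.sum_congr rfl fun h _ => ?_
        rw [Finset.card_biUnion]
        · unfold Bs
          refine Finset.sum_congr rfl fun j _ => ?_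
          rw [Finset.card_image_of_injective, card_wd]
          intro l l' hl
          simpa using hl
        · intro i _ j _ hij
          rw [Function.onFun, Finset.disjoint_left]
          intro x h1 h2
          rw [Finset.mem_image] at h1 h2
          obtain ⟨l, hl, rfl⟩ := h1
          obtain ⟨l', hl', h3⟩ := h2
          rw [mem_wd] at hl hl'
          apply hij
          simp only [Prod.mk.injEq, true_and] at h3
          rw [← hl.1, ← hl'.1, h3]
      · intro i _ j _ hij
        rw [Function.onFun, Finset.disjoint_left]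
        intro x h1 h2
        simp only [Finset.mem_biUnion, Finset.mem_image] at h1 h2
        obtain ⟨_, _, l, hl, rfl⟩ := h1
        obtain ⟨_, _, l', hl', h3⟩ := h2
        apply hij
        simp only [Prod.mk.injEq] at h3
        exact h3.2.1.symm
  · intro i _ j _ hij
    rw [Function.onFun, Finset.disjoint_left]
    intro x h1 h2
    simp only [Finset.mem_biUnion, Finset.mem_image] at h1 h2
    obtain ⟨_, _, _, _, l, hl, rfl⟩ := h1
    obtain ⟨_, _, _, _, l', hl', h3⟩ := h2
    apply hij
    simp only [Prod.mk.injEq] at h3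
    exact h3.1.symm

/-- the edge to the parent -/
def pe (k t N m : ℕ) (x : Fin N × {x // x ∈ blk k t}) : Sym2 (Fin k ⊕ XX k t N m) :=
  if x.2.1.2.2 = [] then s(Sum.inl x.2.1.1, Sum.inr (Sum.inl x)) else
    s(Sum.inr (Sum.inl x), Sum.inr (Sum.inl (x.1, ⟨(x.2.1.1, x.2.1.2.1, x.2.1.2.2.tail),
      blk_suffix x.2.2 (List.tail_suffix _)⟩)))

theorem pe_root {x : Fin N × {x // x ∈ blk k t}} {i : Fin k}
    (h : x.2.1.1 = i ∧ x.2.1.2.2 = []) :
    pe k t N m x = s(Sum.inl i, Sum.inr (Sum.inl x)) := by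
  unfold pe
  rw [if_pos h.2, h.1]

theorem pe_par {β : Fin N} {x y : {x // x ∈ blk k t}} (h : par x.1 y.1) :
    pe k t N m (β, x) = s(Sum.inr (Sum.inl (β, x)), Sum.inr (Sum.inl (β, y))) := by
  obtain ⟨⟨a, κh, l⟩, hx⟩ := x
  obtain ⟨⟨a', κh', l'⟩, hy⟩ := y
  obtain ⟨h1, h2, b, h3⟩ := h
  have h1' : a = a' := h1
  have h2' : κh = κh' := h2
  have h3' : l = b :: l' := h3
  subst h1' h2' h3'
  rfl

/-- the full words of colour `a` -/
def fw (k t : ℕ) (a : Fin k) : Finset (TV k) :=
  (Finset.range t).biUnion (fun h => (wd k a h).image (fun l => (a, h, l)))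

theorem card_fw (ht : 1 ≤ t) (a : Fin k) : (fw k t a).card = Bs k (t - 1) := by
  unfold fw Bs
  rw [Finset.card_biUnion, Nat.sub_add_cancel ht]
  · refine Finset.sum_congr rfl fun j _ => ?_
    rw [Finset.card_image_of_injective, card_wd]
    intro l l' hl
    simpa using hl
  · intro i _ j _ hij
    rw [Function.onFun, Finset.disjoint_left]
    intro x h1 h2
    rw [Finset.mem_image] at h1 h2
    obtain ⟨l, hl, rfl⟩ := h1
    obtain ⟨l', hl', h3⟩ := h2
    apply hij
    simp only [Prod.mk.injEq] at h3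
    exact h3.2.1.symm

theorem mem_fw {x : TV k} (hx : Blk t x) (hl : x.2.2.length = x.2.1) : x ∈ fw k t x.1 := by
  obtain ⟨a, h, l⟩ := x
  unfold fw
  rw [Finset.mem_biUnion]
  refine ⟨h, Finset.mem_range.mpr hx.1, Finset.mem_image.mpr ⟨l, ?_, rfl⟩⟩
  rw [mem_wd]
  exact ⟨hl, hx.2.2⟩

/-- pairs of colours and full words of the first colour -/
def cidx (k t : ℕ) : Finset (Σ _ : Fin k, Σ _ : Fin k, TV k) :=
  (Finset.univ : Finset (Fin k)).sigma (fun a => (Finset.Ioi a).sigma (fun _ => fw k t a))

theorem card_cidx (ht : 1 ≤ t) : (cidx k t).card = k.choose 2 * Bs k (t - 1) := by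
  unfold cidx
  rw [Finset.card_sigma]
  have h1 : ∀ a : Fin k, ((Finset.Ioi a).sigma (fun _ => fw k t a)).card =
      (k - 1 - (a : ℕ)) * Bs k (t - 1) := by
    intro a
    rw [Finset.card_sigma, Finset.sum_const, card_fw ht, Fin.card_Ioi, smul_eq_mul]
  rw [Finset.sum_congr rfl (fun a _ => h1 a), ← Finset.sum_mul,
    Fin.sum_univ_eq_sum_range (fun i => k - 1 - i) k, Finset.sum_range_reflect (fun i => i) k,
    Finset.sum_range_id, Nat.choose_two_right]

/-- a cross edge -/
def ce (k t N m : ℕ) (x : Fin N × (Σ _ : Fin k, Σ _ : Fin k, TV k)) :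
    Sym2 (Fin k ⊕ XX k t N m) :=
  if h : x.2.2.2 ∈ blk k t ∧ ptn t x.2.2.1 x.2.2.2 ∈ blk k t then
    s(Sum.inr (Sum.inl (x.1, ⟨x.2.2.2, h.1⟩)),
      Sum.inr (Sum.inl (x.1, ⟨ptn t x.2.2.1 x.2.2.2, h.2⟩))) else
    s(Sum.inl x.2.1, Sum.inl x.2.1)

theorem ce_cross {β : Fin N} {x y : {x // x ∈ blk k t}} (h : cross t x.1 y.1)
    (hlt : x.1.1 < y.1.1) : ∃ c ∈ cidx k t,
      ce k t N m (β, c) = s(Sum.inr (Sum.inl (β, x)), Sum.inr (Sum.inl (β, y))) := by
  obtain ⟨x, hx⟩ := x
  obtain ⟨y, hy⟩ := y
  obtain ⟨h1, h2, h3, h4, h5⟩ := h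
  simp only at h1 h2 h3 h4 h5 hlt
  refine ⟨⟨x.1, y.1, x⟩, ?_, ?_⟩
  · unfold cidx
    rw [Finset.mem_sigma, Finset.mem_sigma]
    exact ⟨Finset.mem_univ _, Finset.mem_Ioi.mpr hlt, mem_fw (mem_blk.mp hx) h2⟩
  · unfold ce
    have h6 : x ∈ blk k t ∧ ptn t y.1 x ∈ blk k t := ⟨hx, h4 ▸ hy⟩
    rw [dif_pos h6]
    have h7 : (⟨ptn t y.1 x, h6.2⟩ : {x // x ∈ blk k t}) = ⟨y, hy⟩ := Subtype.ext h4.symm
    simp only [h7]

theorem gGraph_edges {k t : ℕ} (ht : 1 ≤ t) (N m : ℕ) : (gGraph k t N m).edgeSet.ncard ≤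
    k * k + N * ((blk k t).card + k.choose 2 * Bs k (t - 1)) + k * m := by
  classical
  have h1 : (gGraph k t N m).edgeSet ⊆
      ((((((Finset.univ : Finset (Fin k × Fin k)).image
          (fun x => (s(Sum.inl x.1, Sum.inl x.2) : Sym2 (Fin k ⊕ XX k t N m)))) ∪
        ((Finset.univ : Finset (Fin N × {x // x ∈ blk k t})).image (pe k t N m))) ∪
        (((Finset.univ : Finset (Fin N)) ×ˢ cidx k t).image (ce k t N m))) ∪
        ((Finset.univ : Finset (Fin k × Fin m)).image
          (fun x => s(Sum.inl x.1, Sum.inr (Sum.inr x.2))))) :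
            Finset (Sym2 (Fin k ⊕ XX k t N m))) := by
    intro e he
    induction e using Sym2.ind with
    | _ x y =>
      rw [SimpleGraph.mem_edgeSet] at he
      change gAdj k t N m x y at he
      rw [Finset.mem_coe]
      rcases x with i | ⟨β, x⟩ | e <;> rcases y with j | ⟨β', y⟩ | f <;> simp only [gAdj] at he
      · refine Finset.mem_union_left _ (Finset.mem_union_left _ (Finset.mem_union_left _ ?_))
        exact Finset.mem_image.mpr ⟨(i, j), Finset.mem_univ _, rfl⟩
      · refine Finset.mem_union_left _ (Finset.mem_union_left _ (Finset.mem_union_right _ ?_))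
        exact Finset.mem_image.mpr ⟨(β', y), Finset.mem_univ _, pe_root he⟩
      · refine Finset.mem_union_right _ ?_
        exact Finset.mem_image.mpr ⟨(i, f), Finset.mem_univ _, rfl⟩
      · refine Finset.mem_union_left _ (Finset.mem_union_left _ (Finset.mem_union_right _ ?_))
        exact Finset.mem_image.mpr ⟨(β, x), Finset.mem_univ _, (pe_root he).trans Sym2.eq_swap⟩
      · obtain ⟨hβ, h | h | h⟩ := he
        · have hβ' : β = β' := hβ
          subst hβ'
          refine Finset.mem_union_left _ (Finset.mem_union_left _ (Finset.mem_union_right _ ?_))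
          exact Finset.mem_image.mpr ⟨(β, x), Finset.mem_univ _, pe_par h⟩
        · have hβ' : β = β' := hβ
          subst hβ'
          refine Finset.mem_union_left _ (Finset.mem_union_left _ (Finset.mem_union_right _ ?_))
          exact Finset.mem_image.mpr ⟨(β, y), Finset.mem_univ _, (pe_par h).trans Sym2.eq_swap⟩
        · have hβ' : β = β' := hβ
          subst hβ'
          refine Finset.mem_union_left _ (Finset.mem_union_right _ ?_)
          rcases lt_or_gt_of_ne h.1 with hlt | hlt
          · obtain ⟨c, hc1, hc2⟩ := ce_cross (m := m) (β := β) h hlt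
            exact Finset.mem_image.mpr ⟨(β, c), Finset.mem_product.mpr
              ⟨Finset.mem_univ _, hc1⟩, hc2⟩
          · obtain ⟨c, hc1, hc2⟩ := ce_cross (m := m) (β := β) (cross_symm h) hlt
            exact Finset.mem_image.mpr ⟨(β, c), Finset.mem_product.mpr
              ⟨Finset.mem_univ _, hc1⟩, hc2.trans Sym2.eq_swap⟩
      · refine Finset.mem_union_right _ ?_
        exact Finset.mem_image.mpr ⟨(j, e), Finset.mem_univ _, Sym2.eq_swap⟩
  refine (Set.ncard_le_ncard h1 (Finset.finite_toSet _)).trans ?_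
  rw [Set.ncard_coe_finset]
  have h2 : k * k + N * ((blk k t).card + k.choose 2 * Bs k (t - 1)) + k * m =
      k * k + N * (blk k t).card + N * (k.choose 2 * Bs k (t - 1)) + k * m := by ring
  rw [h2]
  refine (Finset.card_union_le _ _).trans (Nat.add_le_add ((Finset.card_union_le _ _).trans
    (Nat.add_le_add ((Finset.card_union_le _ _).trans (Nat.add_le_add ?_ ?_)) ?_)) ?_)
  · exact Finset.card_image_le.trans (by simp)
  · exact Finset.card_image_le.trans (by simp)
  · refine Finset.card_image_le.trans ?_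
    rw [Finset.card_product, card_cidx ht]
    simp
  · exact Finset.card_image_le.trans (by simp)

theorem card_vertices (k t N m : ℕ) : Fintype.card (Fin k ⊕ XX k t N m) =
    k + (N * (blk k t).card + m) := by
  simp

end Pool.Agent.FTB
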