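import Pool.Agent.FTB.Words
import Pool.Agent.FTA.Frame

/-!
# The block graph
-/

namespace Pool.Agent.FTB

open Pool.Agent.Helper68 Pool.Agent.FT6

variable {k t N m : ℕ}

/-- words of length `j` without the letter `a` -/
def wd (k : ℕ) (a : Fin k) : ℕ → Finset (List (Fin k))
  | 0 => {[]}
  | j + 1 => ((Finset.univ.erase a) ×ˢ wd k a j).image (fun x => x.1 :: x.2)

/-- the vertices of the block as a finite set -/
def blk (k t : ℕ) : Finset (TV k) :=
  (Finset.univ : Finset (Fin k)).biUnion (fun a => (Finset.range t).biUnion (fun h =>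
    (Finset.range (h + 1)).biUnion (fun j => (wd k a j).image (fun l => (a, h, l)))))

theorem mem_wd {a : Fin k} {j : ℕ} : ∀ {l : List (Fin k)}, l ∈ wd k a j ↔
    l.length = j ∧ ∀ x ∈ l, x ≠ a := by
  induction j with
  | zero =>
    intro l
    simp only [wd, Finset.mem_singleton]
    constructor
    · rintro rfl
      simp
    · rintro ⟨h, -⟩
      exact List.eq_nil_of_length_eq_zero h
  | succ j ih =>
    intro l
    simp only [wd, Finset.mem_image, Finset.mem_product, Finset.mem_erase, Finset.mem_univ,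
      and_true, Prod.exists]
    constructor
    · rintro ⟨b, l', ⟨hb, hl'⟩, rfl⟩
      rw [ih] at hl'
      refine ⟨by simp [hl'.1], ?_⟩
      intro x hx
      rw [List.mem_cons] at hx
      rcases hx with rfl | hx
      · exact hb
      · exact hl'.2 x hx
    · rintro ⟨h1, h2⟩
      cases l with
      | nil => simp at h1
      | cons b l' =>
        refine ⟨b, l', ⟨h2 b (by simp), ih.mpr ⟨by simpa using h1, fun x hx => h2 x (by simp [hx])⟩⟩,
          rfl⟩

theorem mem_blk {x : TV k} : x ∈ blk k t ↔ Blk t x := by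
  obtain ⟨a, h, l⟩ := x
  unfold blk Blk
  simp only [Finset.mem_biUnion, Finset.mem_univ, true_and, Finset.mem_range, Finset.mem_image,
    Prod.mk.injEq]
  constructor
  · rintro ⟨a', h', hh, j, hj, l', hl', rfl, rfl, rfl⟩
    rw [mem_wd] at hl'
    exact ⟨hh, by omega, hl'.2⟩
  · rintro ⟨h1, h2, h3⟩
    exact ⟨a, h, h1, l.length, by omega, l, mem_wd.mpr ⟨rfl, h3⟩, rfl, rfl, rfl⟩

/-- `y` is the parent of `x` -/
def par (x y : TV k) : Prop := x.1 = y.1 ∧ x.2.1 = y.2.1 ∧ ∃ b, x.2.2 = b :: y.2.2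

/-- cross edges -/
def cross (t : ℕ) (x y : TV k) : Prop :=
  x.1 ≠ y.1 ∧ x.2.2.length = x.2.1 ∧ y.2.2.length = y.2.1 ∧ y = ptn t y.1 x ∧ x = ptn t x.1 y

/-- low edges -/
def low (t : ℕ) (x y : TV k) : Prop := par x y ∨ par y x ∨ cross t x y

theorem par_irrefl (x : TV k) : ¬ par x x := by
  rintro ⟨-, -, b, h⟩
  have := congrArg List.length h
  simp at this

theorem cross_symm {x y : TV k} (h : cross t x y) : cross t y x :=
  ⟨h.1.symm, h.2.2.1, h.2.1, h.2.2.2.2, h.2.2.2.1⟩

theorem low_symm {x y : TV k} (h : low t x y) : low t y x := by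
  rcases h with h | h | h
  · exact Or.inr (Or.inl h)
  · exact Or.inl h
  · exact Or.inr (Or.inr (cross_symm h))

theorem low_irrefl (x : TV k) : ¬ low t x x := by
  rintro (h | h | h)
  · exact par_irrefl x h
  · exact par_irrefl x h
  · exact h.1 rfl

/-- low vertices: `N` blocks and `m` leftover vertices -/
abbrev XX (k t N m : ℕ) : Type := (Fin N × {x // x ∈ blk k t}) ⊕ Fin m

/-- adjacency -/
def gAdj (k t N m : ℕ) : (Fin k ⊕ XX k t N m) → (Fin k ⊕ XX k t N m) → Prop
  | .inl i, .inl j => i ≠ j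
  | .inl i, .inr (.inl x) => x.2.1.1 = i ∧ x.2.1.2.2 = []
  | .inr (.inl x), .inl i => x.2.1.1 = i ∧ x.2.1.2.2 = []
  | .inl _, .inr (.inr _) => True
  | .inr (.inr _), .inl _ => True
  | .inr (.inl x), .inr (.inl y) => x.1 = y.1 ∧ low t x.2.1 y.2.1
  | _, _ => False

/-- the graph -/
def gGraph (k t N m : ℕ) : SimpleGraph (Fin k ⊕ XX k t N m) where
  Adj := gAdj k t N m
  symm := ⟨by
    intro u v h
    rcases u with i | x | e <;> rcases v with j | y | f <;> simp only [gAdj] at h ⊢
    · exact fun h' => h h'.symm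
    · exact h
    · exact h
    · exact ⟨h.1.symm, low_symm h.2⟩⟩
  loopless := ⟨by
    intro u h
    rcases u with i | x | e
    · exact h rfl
    · exact low_irrefl _ h.2
    · exact h⟩

theorem blk_suffix {a : Fin k} {h : ℕ} {l l' : List (Fin k)}
    (hx : ((a, h, l) : TV k) ∈ blk k t) (hs : l' <:+ l) : ((a, h, l') : TV k) ∈ blk k t := by
  rw [mem_blk] at hx ⊢
  exact ⟨hx.1, hs.length_le.trans hx.2.1, fun x hx' => hx.2.2 x (hs.subset hx')⟩

end Pool.Agent.FTB
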