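import Pool.Agent.FTB.Edges
import Pool.Agent.FTB.Block
import Pool.Agent.FTB.Arith
import Pool.Agent.FTA.Limit

/-!
# The upper bound
-/

namespace Pool.Agent.FTB

open Pool.Agent.Helper68 Pool.Agent.FTA

theorem sum_Bs_pos {k t : ℕ} (ht : 1 ≤ t) : 1 ≤ ∑ h ∈ Finset.range t, Bs k h := by
  have h1 : Bs k 0 ≤ ∑ h ∈ Finset.range t, Bs k h :=
    Finset.single_le_sum (f := fun h => Bs k h) (fun _ _ => Nat.zero_le _)
      (Finset.mem_range.mpr (by omega))
  have h2 : Bs k 0 = 1 := by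
    unfold Bs
    simp
  omega

theorem fhat_upper {n k t : ℕ} (hk : 2 ≤ k) (ht : 1 ≤ t) (hn : k ≤ n) :
    (∑ h ∈ Finset.range t, Bs k h) * (2 * fhat n (2 * (t + 1)) k) ≤
      (∑ h ∈ Finset.range t, Bs k h) * (k * n) + t * n +
        (∑ h ∈ Finset.range t, Bs k h) * (2 * (k * k + k * (blk k t).card)) := by
  classical
  have hb := card_blk (k := k) (t := t)
  have hK : 0 < (blk k t).card := by
    rw [hb]
    exact Nat.mul_pos (by omega) (sum_Bs_pos ht)
  have hdiv := Nat.div_add_mod (n - k) (blk k t).card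
  have hmod := Nat.mod_lt (n - k) hK
  have hn' : n = k + ((n - k) / (blk k t).card * (blk k t).card + (n - k) % (blk k t).card) := by
    rw [Nat.mul_comm, hdiv]
    omega
  have h1 := fhat_le (d := 2 * (t + 1)) (k := k)
    ((card_vertices k t ((n - k) / (blk k t).card) ((n - k) % (blk k t).card)).trans hn'.symm)
    (gGraph_conn (by omega) ht) (gGraph_edges ht _ _)
  exact upper_arith hk ht hb hn' hmod h1

theorem limsup_le {d k t : ℕ} (hk : 2 ≤ k) (ht : 1 ≤ t) (hd : 2 * (t + 1) ≤ d) :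
    Filter.limsup (fun n : ℕ => phihat n d k / n) Filter.atTop ≤
      (t : ℝ) / (2 * ∑ h ∈ Finset.range t, (Bs k h : ℝ)) := by
  have hs := sum_Bs_pos (k := k) ht
  have hcast : ∑ h ∈ Finset.range t, (Bs k h : ℝ) =
      ((∑ h ∈ Finset.range t, Bs k h : ℕ) : ℝ) := by
    push_cast
    rfl
  have H : ∀ n, k ≤ n → (∑ h ∈ Finset.range t, Bs k h) * (2 * fhat n d k) ≤
      (∑ h ∈ Finset.range t, Bs k h) * (k * n) + t * n +
        (∑ h ∈ Finset.range t, Bs k h) * (2 * (k * k + k * (blk k t).card)) := fun n hn =>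
    (Nat.mul_le_mul_left _ (Nat.mul_le_mul_left _ (fhat_anti (by omega) hd))).trans
      (fhat_upper hk ht hn)
  rw [hcast]
  generalize (∑ h ∈ Finset.range t, Bs k h) = s at hs H ⊢
  obtain ⟨B, hB⟩ : ∃ B, B + 1 = 2 * s := ⟨2 * s - 1, by omega⟩
  have h1 := up_lim (d := d) (k := k) (t := t) (B := B) (by omega)
    (2 * (s * (2 * (k * k + k * (blk k t).card)))) (by
      intro n hn
      rw [hB]
      have h2 := H n hn
      nlinarith)
  have h2 : (B : ℝ) + 1 = 2 * (s : ℝ) := by exact_mod_cast hB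
  rw [h2] at h1
  exact h1

end Pool.Agent.FTB
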