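import Pool.Agent.FTA.Words

/-!
# The block for diameter `2 t + 2`: words, trees, cross edges

For every colour `a` and every height `h < t` there is a tree with branching `k - 1`; its vertices
are the words of length at most `h` without the letter `a` (lists, head = last letter, parent =
tail).  A word `b^m p1` of full length (`m` maximal, `b ≠ a`) of the tree `(a, h)` has towards colour
`b` the cross neighbour `a^(t-1-h) p1'` in the tree `(b, t-1-m)`, `p1'` is `p1` with `a`, `b`
exchanged.
-/

namespace Pool.Agent.FTB

open Pool.Agent.FTA (dropWhile_eq_self_of_head head_dropWhile_ne)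

/-- a tree vertex: colour, height of the tree, word -/
abbrev TV (k : ℕ) : Type := Fin k × ℕ × List (Fin k)

variable {k t : ℕ}

/-- the vertices of the block -/
def Blk (t : ℕ) (x : TV k) : Prop := x.2.1 < t ∧ x.2.2.length ≤ x.2.1 ∧ ∀ y ∈ x.2.2, y ≠ x.1

/-- the length of the run of `b` at the head -/
def run (b : Fin k) (l : List (Fin k)) : ℕ := (l.takeWhile (fun y => y = b)).length

/-- the word without the run -/
def rest (b : Fin k) (l : List (Fin k)) : List (Fin k) := l.dropWhile (fun y => y = b)

theorem run_rest (b : Fin k) (l : List (Fin k)) : l = List.replicate (run b l) b ++ rest b l := by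
  have h3 : l.takeWhile (fun y => y = b) = List.replicate (run b l) b := by
    rw [List.eq_replicate_iff]
    refine ⟨rfl, fun y hy => ?_⟩
    simpa using List.mem_takeWhile_imp hy
  conv_lhs => rw [← List.takeWhile_append_dropWhile (p := fun y => decide (y = b)) (l := l)]
  rw [← h3]
  rfl

theorem run_replicate_append (b : Fin k) (m : ℕ) (l : List (Fin k))
    (h : ∀ y, l.head? = some y → y ≠ b) :
    run b (List.replicate m b ++ l) = m ∧ rest b (List.replicate m b ++ l) = l := by
  induction m with
  | zero =>
    rw [List.replicate_zero, List.nil_append]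
    refine ⟨?_, dropWhile_eq_self_of_head b l h⟩
    cases l with
    | nil => rfl
    | cons z l =>
      have := h z rfl
      unfold run
      rw [List.takeWhile_cons]
      simp [this]
  | succ m ih =>
    rw [List.replicate_succ, List.cons_append]
    unfold run rest at ih ⊢
    rw [List.takeWhile_cons, List.dropWhile_cons]
    simp only [decide_true, if_true, List.length_cons]
    exact ⟨by rw [ih.1], ih.2⟩

theorem le_run (b : Fin k) (m : ℕ) (l : List (Fin k)) : m ≤ run b (List.replicate m b ++ l) := by
  induction m with
  | zero => exact Nat.zero_le _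
  | succ m ih =>
    rw [List.replicate_succ, List.cons_append]
    unfold run at ih ⊢
    rw [List.takeWhile_cons]
    simp only [decide_true, if_true, List.length_cons]
    omega

/-- the cross neighbour of `x` (a word of full length) of colour `b` -/
def ptn (t : ℕ) (b : Fin k) (x : TV k) : TV k :=
  (b, t - 1 - run b x.2.2, List.replicate (t - 1 - x.2.1) x.1 ++
    (rest b x.2.2).map (Equiv.swap x.1 b))

theorem rest_head (b : Fin k) (l : List (Fin k)) (y : Fin k) (h : (rest b l).head? = some y) :
    y ≠ b := head_dropWhile_ne b l y h

theorem swap_head {a b : Fin k} {l : List (Fin k)} (h : ∀ y, l.head? = some y → y ≠ b) :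
    ∀ y, (l.map (Equiv.swap a b)).head? = some y → y ≠ a := by
  intro y hy
  rw [List.head?_map, Option.map_eq_some_iff] at hy
  obtain ⟨z, hz, rfl⟩ := hy
  intro h3
  apply h z hz
  have h4 := (Equiv.swap_apply_eq_iff (x := a) (y := b) (z := z) (w := a)).mp h3
  rw [h4, Equiv.swap_apply_left]

theorem length_split (b : Fin k) (l : List (Fin k)) :
    l.length = run b l + (rest b l).length := by
  have h := congrArg List.length (run_rest b l)
  rw [List.length_append, List.length_replicate] at h
  exact h

theorem ptn_full {x : TV k} (hx : Blk t x) (hl : x.2.2.length = x.2.1) (b : Fin k) :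
    (ptn t b x).2.2.length = (ptn t b x).2.1 := by
  have h1 := length_split b x.2.2
  have h2 := hx.1
  simp only [ptn, List.length_append, List.length_replicate, List.length_map]
  omega

theorem ptn_blk {x : TV k} (hx : Blk t x) (hl : x.2.2.length = x.2.1) {b : Fin k}
    (hb : b ≠ x.1) : Blk t (ptn t b x) := by
  have h2 := hx.1
  refine ⟨?_, (ptn_full hx hl b).le, ?_⟩
  · simp only [ptn]
    omega
  · intro y hy
    simp only [ptn, List.mem_append] at hy ⊢
    rcases hy with hy | hy
    · rw [List.eq_of_mem_replicate hy]
      exact fun h' => hb h'.symm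
    · rw [List.mem_map] at hy
      obtain ⟨z, hz, rfl⟩ := hy
      have hz' : z ∈ x.2.2 := (List.dropWhile_suffix _).subset hz
      intro h3
      apply hx.2.2 z hz'
      have h4 := (Equiv.swap_apply_eq_iff (x := x.1) (y := b) (z := z) (w := b)).mp h3
      rw [h4, Equiv.swap_apply_right]

theorem ptn_ptn {x : TV k} (hx : Blk t x) (hl : x.2.2.length = x.2.1) (b : Fin k) :
    ptn t x.1 (ptn t b x) = x := by
  obtain ⟨a, h, p⟩ := x
  have h2 : h < t := hx.1
  have h3 := length_split b p
  simp only at hl
  have h5 := run_replicate_append a (t - 1 - h) ((rest b p).map (Equiv.swap a b))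
    (swap_head (fun y hy => rest_head b p y hy))
  simp only [ptn, h5.1, h5.2]
  refine Prod.ext rfl (Prod.ext ?_ ?_)
  · show t - 1 - (t - 1 - h) = h
    omega
  · show List.replicate (t - 1 - (t - 1 - run b p)) b ++
      ((rest b p).map (Equiv.swap a b)).map (Equiv.swap b a) = p
    have h6 : t - 1 - (t - 1 - run b p) = run b p := by omega
    rw [h6, List.map_map]
    have h7 : (⇑(Equiv.swap b a) ∘ ⇑(Equiv.swap a b)) = id := by
      funext z
      rw [Equiv.swap_comm b a]
      simp
    rw [h7, List.map_id]
    exact (run_rest b p).symm

end Pool.Agent.FTB
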